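import Mathlib

/-!
# Zero-diagonal symmetric 4x4 matrices with positive entries and negative determinant
-/

open Polynomial

namespace Pool.Agent.X178.Areas

/-- at most one positive eigenvalue, counted with (algebraic) multiplicity -/
def AtMostOnePositiveEigenvalue {m : ℕ} (A : Matrix (Fin m) (Fin m) ℝ) : Prop :=
  Multiset.card (A.charpoly.roots.filter (fun t => 0 < t)) ≤ 1

lemma roots_card {s t d : ℝ} (hs : 0 ≤ s) (ht : 0 ≤ t) (hd : 0 < d) {p : ℝ[X]}
    (hp : p = X ^ 4 - C s * X ^ 2 - C t * X - C d) :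
    Multiset.card (p.roots.filter (fun x => 0 < x)) ≤ 1 := by
  have hp0 : p ≠ 0 := by
    intro h
    have : p.eval 0 = 0 := by rw [h]; simp
    rw [hp] at this
    simp at this
    linarith
  have hev : ∀ x, p.eval x = x ^ 4 - s * x ^ 2 - t * x - d := by
    intro x; rw [hp]; simp
  have hdev : ∀ x, (derivative p).eval x = 4 * x ^ 3 - s * (2 * x) - t := by
    intro x; rw [hp]
    simp
    ring
  have hnodup : (p.roots.filter (fun x => 0 < x)).Nodup := by
    rw [Multiset.nodup_iff_count_le_one]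
    intro x
    by_contra hcon
    push Not at hcon
    have hc : 1 < Multiset.count x p.roots :=
      lt_of_lt_of_le hcon (Multiset.count_le_of_le _ (Multiset.filter_le _ _))
    have hxmem : x ∈ p.roots.filter (fun x => 0 < x) :=
      Multiset.count_pos.1 (by omega)
    have hx0 : 0 < x := (Multiset.mem_filter.1 hxmem).2
    rw [count_roots, one_lt_rootMultiplicity_iff_isRoot hp0] at hc
    have h1 : p.eval x = 0 := hc.1
    have h2 : (derivative p).eval x = 0 := hc.2
    rw [hev] at h1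
    rw [hdev] at h2
    nlinarith [mul_nonneg hs (sq_nonneg x), mul_nonneg ht hx0.le, mul_pos hx0 hx0]
  have heq : ∀ x ∈ p.roots.filter (fun x => 0 < x), ∀ y ∈ p.roots.filter (fun x => 0 < x),
      ¬ x < y := by
    intro x hx y hy hxy
    obtain ⟨hx1, hx0⟩ := Multiset.mem_filter.1 hx
    obtain ⟨hy1, hy0⟩ := Multiset.mem_filter.1 hy
    have h1 : p.eval x = 0 := (mem_roots hp0).1 hx1
    have h2 : p.eval y = 0 := (mem_roots hp0).1 hy1
    rw [hev] at h1 h2
    have e : s * (x ^ 2 * y ^ 2) * (y ^ 2 - x ^ 2) + t * (x * y) * (y ^ 3 - x ^ 3) +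
        d * (y ^ 4 - x ^ 4) = 0 := by
      linear_combination x ^ 4 * h2 - y ^ 4 * h1
    have q2 : 0 < y ^ 2 - x ^ 2 := sub_pos.2 (pow_lt_pow_left₀ hxy hx0.le two_ne_zero)
    have q3 : 0 < y ^ 3 - x ^ 3 := sub_pos.2 (pow_lt_pow_left₀ hxy hx0.le three_ne_zero)
    have q4 : 0 < y ^ 4 - x ^ 4 := sub_pos.2 (pow_lt_pow_left₀ hxy hx0.le four_ne_zero)
    have r1 : 0 ≤ s * (x ^ 2 * y ^ 2) * (y ^ 2 - x ^ 2) := by positivity
    have r2 : 0 ≤ t * (x * y) * (y ^ 3 - x ^ 3) := by positivity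
    have r3 : 0 < d * (y ^ 4 - x ^ 4) := by positivity
    linarith
  rw [← Multiset.toFinset_card_of_nodup hnodup, Finset.card_le_one]
  intro x hx y hy
  rw [Multiset.mem_toFinset] at hx hy
  exact le_antisymm (not_lt.1 (heq y hy x hx)) (not_lt.1 (heq x hx y hy))

/-- explicit characteristic polynomial -/
lemma charpoly_four (a b c d e f : ℝ) :
    (!![0, a, b, c; a, 0, d, e; b, d, 0, f; c, e, f, 0] : Matrix (Fin 4) (Fin 4) ℝ).charpoly =
      X ^ 4 - C (a ^ 2 + b ^ 2 + c ^ 2 + d ^ 2 + e ^ 2 + f ^ 2) * X ^ 2 -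
        C (2 * (a * b * d + a * c * e + b * c * f + d * e * f)) * X -
        C (-((a * f) ^ 2 + (b * e) ^ 2 + (c * d) ^ 2 - 2 * (a * f) * (b * e) -
          2 * (a * f) * (c * d) - 2 * (b * e) * (c * d))) := by
  rw [Matrix.charpoly, Matrix.charmatrix]
  simp [Matrix.det_succ_row_zero, Fin.sum_univ_succ, Matrix.scalar_apply, Matrix.diagonal,
    Fin.succAbove]
  have h2 : (C (2:ℝ) : ℝ[X]) = 2 := map_ofNat C 2
  simp only [h2]
  ring

lemma atMostOne_four {a b c d e f : ℝ} (ha : 0 ≤ a) (hb : 0 ≤ b) (hc : 0 ≤ c) (hd : 0 ≤ d)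
    (he : 0 ≤ e) (hf : 0 ≤ f)
    (hdet : (a * f) ^ 2 + (b * e) ^ 2 + (c * d) ^ 2 - 2 * (a * f) * (b * e) -
          2 * (a * f) * (c * d) - 2 * (b * e) * (c * d) < 0) :
    AtMostOnePositiveEigenvalue
      (!![0, a, b, c; a, 0, d, e; b, d, 0, f; c, e, f, 0] : Matrix (Fin 4) (Fin 4) ℝ) :=
  roots_card (by positivity) (by positivity) (by linarith) (charpoly_four a b c d e f)

end Pool.Agent.X178.Areas
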