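import Pool.Agent.X178.Areas.Planar

/-!
# Areas of coordinate projections of convex bodies
-/

open MeasureTheory Set Filter Topology

namespace Pool.Agent.X178.Areas

variable {n : ℕ}

/-- the coordinate projection `x ↦ (x_i, x_j)` -/
def proj (i j : Fin n) (x : Fin n → ℝ) : ℝ × ℝ := (x i, x j)

/-- area of the projection -/
noncomputable def area (K : Set (Fin n → ℝ)) (i j : Fin n) : ℝ := volume.real (proj i j '' K)

/-- smallest value of the `i`-th coordinate -/
noncomputable def lo (K : Set (Fin n → ℝ)) (i : Fin n) : ℝ := sInf ((fun x => x i) '' K)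

/-- largest value of the `i`-th coordinate -/
noncomputable def hi (K : Set (Fin n → ℝ)) (i : Fin n) : ℝ := sSup ((fun x => x i) '' K)

/-- width in the `i`-th coordinate direction -/
noncomputable def width (K : Set (Fin n → ℝ)) (i : Fin n) : ℝ := hi K i - lo K i

/-- a nonempty compact convex set -/
structure Body (K : Set (Fin n → ℝ)) : Prop where
  ne : K.Nonempty
  compact : IsCompact K
  convex : Convex ℝ K

lemma Body.coord_compact {K : Set (Fin n → ℝ)} (h : Body K) (i : Fin n) :
    IsCompact ((fun x : Fin n → ℝ => x i) '' K) := h.compact.image (continuous_apply i)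

lemma Body.lo_attained {K : Set (Fin n → ℝ)} (h : Body K) (i : Fin n) : ∃ x ∈ K, x i = lo K i :=
  (h.coord_compact i).sInf_mem (h.ne.image _)

lemma Body.hi_attained {K : Set (Fin n → ℝ)} (h : Body K) (i : Fin n) : ∃ x ∈ K, x i = hi K i :=
  (h.coord_compact i).sSup_mem (h.ne.image _)

lemma Body.lo_le {K : Set (Fin n → ℝ)} (h : Body K) (i : Fin n) {x : Fin n → ℝ} (hx : x ∈ K) :
    lo K i ≤ x i := csInf_le (h.coord_compact i).bddBelow ⟨x, hx, rfl⟩

lemma Body.le_hi {K : Set (Fin n → ℝ)} (h : Body K) (i : Fin n) {x : Fin n → ℝ} (hx : x ∈ K) :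
    x i ≤ hi K i := le_csSup (h.coord_compact i).bddAbove ⟨x, hx, rfl⟩

lemma Body.width_nonneg {K : Set (Fin n → ℝ)} (h : Body K) (i : Fin n) : 0 ≤ width K i := by
  obtain ⟨x, hx⟩ := h.ne
  unfold width
  linarith [h.lo_le i hx, h.le_hi i hx]

/-- the normalised coordinate -/
noncomputable def nc (K : Set (Fin n → ℝ)) (i : Fin n) (x : Fin n → ℝ) : ℝ :=
  (x i - lo K i) / width K i

lemma Body.nc_mem {K : Set (Fin n → ℝ)} (h : Body K) {i : Fin n} (hw : 0 < width K i)
    {x : Fin n → ℝ} (hx : x ∈ K) : nc K i x ∈ Icc (0:ℝ) 1 := by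
  unfold nc
  constructor
  · exact div_nonneg (by linarith [h.lo_le i hx]) hw.le
  · rw [div_le_one hw]
    unfold width
    linarith [h.le_hi i hx]

lemma nc_convex (K : Set (Fin n → ℝ)) (i : Fin n) (x y : Fin n → ℝ) {a b : ℝ} (hab : a + b = 1) :
    nc K i (a • x + b • y) = a * nc K i x + b * nc K i y := by
  unfold nc
  simp only [Pi.add_apply, Pi.smul_apply, smul_eq_mul]
  rw [← mul_div_assoc, ← mul_div_assoc, ← add_div]
  congr 1
  linear_combination (lo K i) * hab

lemma Body.nc_surj {K : Set (Fin n → ℝ)} (h : Body K) {i : Fin n} (hw : 0 < width K i)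
    {t : ℝ} (ht : t ∈ Icc (0:ℝ) 1) : ∃ x ∈ K, nc K i x = t := by
  obtain ⟨x, hx, hxl⟩ := h.lo_attained i
  obtain ⟨y, hy, hyl⟩ := h.hi_attained i
  have hs : (1 - t) + t = 1 := by ring
  refine ⟨(1 - t) • x + t • y, h.convex hx hy (sub_nonneg.2 ht.2) ht.1 hs, ?_⟩
  rw [nc_convex K i x y hs]
  have h1 : nc K i x = 0 := by unfold nc; rw [hxl]; simp
  have h2 : nc K i y = 1 := by
    unfold nc
    rw [hyl]
    exact div_self hw.ne'
  rw [h1, h2]; ring

/-- the normalised projection -/
noncomputable def nproj (K : Set (Fin n → ℝ)) (i j : Fin n) : Set (ℝ × ℝ) :=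
  (fun x => (nc K i x, nc K j x)) '' K

lemma nc_continuous (K : Set (Fin n → ℝ)) (i : Fin n) : Continuous (nc K i) := by
  unfold nc
  fun_prop

lemma Body.box {K : Set (Fin n → ℝ)} (h : Body K) {i j : Fin n} (hi : 0 < width K i)
    (hj : 0 < width K j) : Box (nproj K i j) where
  compact := h.compact.image ((nc_continuous K i).prodMk (nc_continuous K j))
  convex := by
    rintro _ ⟨x, hx, rfl⟩ _ ⟨y, hy, rfl⟩ a b ha hb hab
    refine ⟨a • x + b • y, h.convex hx hy ha hb hab, ?_⟩
    simp [nc_convex K _ x y hab]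
  sub := by
    rintro _ ⟨x, hx, rfl⟩
    exact ⟨h.nc_mem hi hx, h.nc_mem hj hx⟩
  full1 := by
    intro t ht
    obtain ⟨x, hx, hxt⟩ := h.nc_surj hi ht
    exact ⟨nc K j x, x, hx, by simp [hxt]⟩
  full2 := by
    intro t ht
    obtain ⟨x, hx, hxt⟩ := h.nc_surj hj ht
    exact ⟨nc K i x, x, hx, by simp [hxt]⟩

/-- scaling of planar areas -/
lemma scale_area (S : Set (ℝ × ℝ)) (u v : ℝ) {a b : ℝ} (ha : 0 < a) (hb : 0 < b) :
    volume.real ((fun p : ℝ × ℝ => ((p.1 - u) / a, (p.2 - v) / b)) '' S) =
      volume.real S / (a * b) := by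
  set T : (ℝ × ℝ) →ₗ[ℝ] (ℝ × ℝ) :=
    LinearMap.prodMap (a⁻¹ • (LinearMap.id : ℝ →ₗ[ℝ] ℝ)) (b⁻¹ • (LinearMap.id : ℝ →ₗ[ℝ] ℝ)) with hT
  have hdet : LinearMap.det T = (a * b)⁻¹ := by
    rw [hT]
    have := LinearMap.det_prodMap (a⁻¹ • (LinearMap.id : ℝ →ₗ[ℝ] ℝ))
      (b⁻¹ • (LinearMap.id : ℝ →ₗ[ℝ] ℝ))
    rw [this]
    simp [mul_comm]
  have himg : (fun p : ℝ × ℝ => ((p.1 - u) / a, (p.2 - v) / b)) '' S =
      (fun q : ℝ × ℝ => q + (-(u / a), -(v / b))) '' (T '' S) := by
    rw [image_image]
    refine image_congr fun p _ => ?_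
    simp only [hT, LinearMap.prodMap_apply, LinearMap.smul_apply, LinearMap.id_coe, id_eq,
      smul_eq_mul, Prod.mk_add_mk, Prod.mk.injEq]
    constructor
    · field_simp; ring
    · field_simp; ring
  have hvol : volume ((fun p : ℝ × ℝ => ((p.1 - u) / a, (p.2 - v) / b)) '' S) =
      ENNReal.ofReal ((a * b)⁻¹) * volume S := by
    rw [himg, image_add_right, measure_preimage_add_right, Measure.addHaar_image_linearMap, hdet,
      abs_of_pos (by positivity)]
  rw [Measure.real, hvol, ENNReal.toReal_mul, ENNReal.toReal_ofReal (by positivity)]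
  rw [Measure.real]
  field_simp

lemma Body.area_nproj {K : Set (Fin n → ℝ)} {i j : Fin n} (hi : 0 < width K i)
    (hj : 0 < width K j) :
    volume.real (nproj K i j) = area K i j / (width K i * width K j) := by
  have : nproj K i j =
      (fun p : ℝ × ℝ => ((p.1 - lo K i) / width K i, (p.2 - lo K j) / width K j)) ''
        (proj i j '' K) := by
    rw [image_image]
    rfl
  rw [this, scale_area _ _ _ hi hj, area]

lemma area_swap (K : Set (Fin n → ℝ)) (h : Body K) (i j : Fin n) : area K i j = area K j i := by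
  unfold area
  have : proj i j '' K = Prod.swap ⁻¹' (proj j i '' K) := by
    ext ⟨a, b⟩
    constructor
    · rintro ⟨x, hx, he⟩
      simp only [proj, Prod.mk.injEq] at he
      exact ⟨x, hx, by simp [proj, he.1, he.2]⟩
    · rintro ⟨x, hx, he⟩
      simp only [proj, Prod.swap_prod_mk, Prod.mk.injEq] at he
      exact ⟨x, hx, by simp [proj, he.1, he.2]⟩
  have hm : MeasurableSet (proj j i '' K) :=
    (h.compact.image ((continuous_apply j).prodMk (continuous_apply i))).measurableSet
  rw [this, Measure.real, Measure.real, Measure.volume_eq_prod,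
    (Measure.measurePreserving_swap (μ := (volume : Measure ℝ))
      (ν := (volume : Measure ℝ))).measure_preimage hm.nullMeasurableSet]

lemma Body.area_zero {K : Set (Fin n → ℝ)} (h : Body K) {i : Fin n} (j : Fin n)
    (hw : width K i = 0) : area K i j = 0 := by
  have hsub : proj i j '' K ⊆ {lo K i} ×ˢ (univ : Set ℝ) := by
    rintro _ ⟨x, hx, rfl⟩
    refine ⟨?_, mem_univ _⟩
    have h1 := h.lo_le i hx
    have h2 := h.le_hi i hx
    unfold width at hw
    show x i = lo K i
    linarith
  have : volume (proj i j '' K) = 0 := by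
    refine measure_mono_null hsub ?_
    rw [Measure.volume_eq_prod, Measure.prod_prod]
    simp
  rw [area, Measure.real, this, ENNReal.toReal_zero]

lemma area_nonneg (K : Set (Fin n → ℝ)) (i j : Fin n) : 0 ≤ area K i j := measureReal_nonneg

/-- **The width inequality.** -/
theorem width_ineq {K : Set (Fin n → ℝ)} (h : Body K) (i j k : Fin n) :
    width K k * area K i j ≤
      (129 / 100) * (width K j * area K i k + width K i * area K j k) := by
  have wi := h.width_nonneg i
  have wj := h.width_nonneg j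
  have wk := h.width_nonneg k
  have aij := area_nonneg K i j
  have aik := area_nonneg K i k
  have ajk := area_nonneg K j k
  have hR : 0 ≤ (129 / 100) * (width K j * area K i k + width K i * area K j k) := by positivity
  rcases wk.eq_or_lt with h0 | hk
  · rw [← h0, zero_mul]; exact hR
  rcases wi.eq_or_lt with h0 | hi
  · rw [h.area_zero j h0.symm, mul_zero]; exact hR
  rcases wj.eq_or_lt with h0 | hj
  · rw [area_swap K h i j, h.area_zero i h0.symm, mul_zero]; exact hR
  have key := planar (A := nproj K i j) (h.box hi hk) (h.box hj hk)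
    (h.box hi hj).compact.measurableSet (by
      rintro _ ⟨x, hx, rfl⟩
      exact ⟨h.nc_mem hi hx, nc K k x, ⟨x, hx, rfl⟩, ⟨x, hx, rfl⟩⟩)
  rw [Body.area_nproj hi hk, Body.area_nproj hj hk, Body.area_nproj hi hj] at key
  have hpos : 0 < width K i * width K j * width K k := by positivity
  have := mul_le_mul_of_nonneg_left key hpos.le
  have e1 : width K i * width K j * width K k * (area K i j / (width K i * width K j)) =
      width K k * area K i j := by field_simp
  have e2 : width K i * width K j * width K k *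
      (129 / 100 * (area K i k / (width K i * width K k) + area K j k / (width K j * width K k))) =
      (129 / 100) * (width K j * area K i k + width K i * area K j k) := by
    field_simp
  rwa [e1, e2] at this

end Pool.Agent.X178.Areas
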