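import Mathlib

/-!
# A one-dimensional inequality for compositions of concave functions
-/

open MeasureTheory Set Filter Topology

namespace Pool.Agent.X178.Areas

/-- numerical inequality -/
lemma num_ineq {m e s : ℝ} (hm : 0 ≤ m) (he : 0 ≤ e) (hs : 0 < s) (hms : m + s ≤ 1) (hes : e ≤ s) :
    m * e * (2 * s - e) ≤ (29 / 100) * s * (m + e) := by
  have hs1 : s ≤ 1 := by linarith
  by_cases h1 : e * (2 * s - e) ≤ 29 / 100 * s
  · nlinarith [mul_nonneg hm (sub_nonneg.2 h1), mul_nonneg hs.le he]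
  · push Not at h1
    -- reduce to m = 1 - s
    have h2 : (1 - s) * (e * (2 * s - e) - 29 / 100 * s) ≤ 29 / 100 * s * e := by
      by_cases h3 : s ≤ 21 / 25
      · have hcub : 0 ≤ 1.16 * (1 - s) ^ 2 - s * (1.71 - 2 * s) ^ 2 := by
          nlinarith [mul_nonneg (sq_nonneg (s - 0.58)) (sub_nonneg.2 h3), sq_nonneg (s - 0.58)]
        have h1s : 0 < 1 - s := by linarith
        have hsq := sq_nonneg (2 * (1 - s) * e - s * (1.71 - 2 * s))
        nlinarith [mul_nonneg hs.le hcub]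
      · push Not at h3
        nlinarith [mul_nonneg hs.le he, mul_nonneg he (sub_nonneg.2 hes), sq_nonneg e,
          mul_nonneg (sub_nonneg.2 hs1) (mul_nonneg he he), mul_nonneg (sub_nonneg.2 hs1) hs.le,
          mul_nonneg (sub_nonneg.2 hs1) he]
    nlinarith [mul_nonneg (sub_nonneg.2 hms) (sub_nonneg.2 h1.le)]

/-- a concave function on `[0,1]` with a maximum at `p` is monotone on `[0,p]` -/
lemma mono_left {f : ℝ → ℝ} {a b p : ℝ} (hf : ConcaveOn ℝ (Icc a b) f) (hp : p ∈ Icc a b)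
    (hmax : ∀ t ∈ Icc a b, f t ≤ f p) : MonotoneOn f (Icc a p) := by
  intro x hx y hy hxy
  have hx' : x ∈ Icc a b := ⟨hx.1, hx.2.trans hp.2⟩
  have h := hf.min_le_of_mem_Icc hx' hp (⟨hxy, hy.2⟩ : y ∈ Icc x p)
  rwa [min_eq_left (hmax x hx')] at h

lemma anti_right {f : ℝ → ℝ} {a b p : ℝ} (hf : ConcaveOn ℝ (Icc a b) f) (hp : p ∈ Icc a b)
    (hmax : ∀ t ∈ Icc a b, f t ≤ f p) : AntitoneOn f (Icc p b) := by
  intro x hx y hy hxy
  have hy' : y ∈ Icc a b := ⟨hp.1.trans hy.1, hy.2⟩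
  have h := hf.min_le_of_mem_Icc hp hy' (⟨hx.1, hxy⟩ : x ∈ Icc p y)
  rwa [min_eq_right (hmax y hy')] at h

/-- splitting an integral at a point and rescaling both parts -/
lemma split_integral {φ : ℝ → ℝ} {p : ℝ} (hp : p ∈ Icc (0:ℝ) 1)
    (h1 : IntervalIntegrable φ volume 0 p) (h2 : IntervalIntegrable φ volume p 1) :
    ∫ t in (0:ℝ)..1, φ t =
      p * (∫ u in (0:ℝ)..1, φ (p * u)) + (1 - p) * ∫ u in (0:ℝ)..1, φ (1 - (1 - p) * u) := by
  have e1 := intervalIntegral.smul_integral_comp_mul_left (a := 0) (b := 1) φ p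
  have e2 := intervalIntegral.smul_integral_comp_sub_mul (a := 0) (b := 1) φ (1 - p) 1
  simp only [smul_eq_mul, mul_zero, mul_one, sub_zero, sub_sub_cancel] at e1 e2
  rw [e1, e2, intervalIntegral.integral_add_adjacent_intervals h1 h2]

lemma integral_id01 : ∫ t in (0:ℝ)..1, t = 1 / 2 := by
  rw [integral_id]; norm_num

/-- the integral of a nonnegative concave function is at least half of each value -/
lemma half_le {φ : ℝ → ℝ} (hφ : ConcaveOn ℝ (Icc 0 1) φ) (h0 : ∀ t ∈ Icc (0:ℝ) 1, 0 ≤ φ t)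
    (hint : IntervalIntegrable φ volume 0 1) {t₀ : ℝ} (ht : t₀ ∈ Icc (0:ℝ) 1) :
    φ t₀ / 2 ≤ ∫ t in (0:ℝ)..1, φ t := by
  have hsub1 : uIcc 0 t₀ ⊆ uIcc (0:ℝ) 1 := by
    rw [uIcc_of_le ht.1, uIcc_of_le zero_le_one]; exact Icc_subset_Icc le_rfl ht.2
  have hsub2 : uIcc t₀ 1 ⊆ uIcc (0:ℝ) 1 := by
    rw [uIcc_of_le ht.2, uIcc_of_le zero_le_one]; exact Icc_subset_Icc ht.1 le_rfl
  have hi1 := hint.mono_set hsub1
  have hi2 := hint.mono_set hsub2
  rw [← intervalIntegral.integral_add_adjacent_intervals hi1 hi2]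
  have a1 : φ t₀ * t₀ / 2 ≤ ∫ t in (0:ℝ)..t₀, φ t := by
    rcases ht.1.eq_or_lt with h | h
    · rw [← h]; simp
    · have : ∫ t in (0:ℝ)..t₀, φ t₀ / t₀ * t = φ t₀ * t₀ / 2 := by
        rw [intervalIntegral.integral_const_mul, integral_id]
        field_simp
        ring
      rw [← this]
      refine intervalIntegral.integral_mono_on ht.1 ?_ hi1 fun t htt => ?_
      · exact (continuous_const.mul continuous_id).intervalIntegrable _ _
      · have hz : (0:ℝ) ∈ Icc (0:ℝ) 1 := ⟨le_rfl, zero_le_one⟩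
        have hc := hφ.2 hz ht (show (0:ℝ) ≤ 1 - t / t₀ by
          rw [sub_nonneg, div_le_one h]; exact htt.2) (show (0:ℝ) ≤ t / t₀ by
          exact div_nonneg htt.1 h.le) (by ring)
        simp only [smul_eq_mul, mul_zero, zero_add] at hc
        rw [div_mul_cancel₀ _ h.ne'] at hc
        have h3 : 0 ≤ (1 - t / t₀) * φ 0 := mul_nonneg (by
          rw [sub_nonneg, div_le_one h]; exact htt.2) (h0 0 hz)
        have h4 : φ t₀ / t₀ * t = t / t₀ * φ t₀ := by ring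
        rw [h4]; linarith
  have a2 : φ t₀ * (1 - t₀) / 2 ≤ ∫ t in t₀..1, φ t := by
    rcases ht.2.eq_or_lt with h | h
    · rw [h]; simp
    · have h1 : 0 < 1 - t₀ := by linarith
      have : ∫ t in t₀..1, φ t₀ / (1 - t₀) * (1 - t) = φ t₀ * (1 - t₀) / 2 := by
        rw [intervalIntegral.integral_const_mul, intervalIntegral.integral_sub
          (by simp) (by simp), integral_id, intervalIntegral.integral_const]
        simp only [smul_eq_mul, mul_one]
        field_simp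
        ring
      rw [← this]
      refine intervalIntegral.integral_mono_on ht.2 ?_ hi2 fun t htt => ?_
      · exact (continuous_const.mul (continuous_const.sub continuous_id)).intervalIntegrable _ _
      · have hz : (1:ℝ) ∈ Icc (0:ℝ) 1 := ⟨zero_le_one, le_rfl⟩
        have hw : 0 ≤ (1 - t) / (1 - t₀) := div_nonneg (by linarith [htt.2]) h1.le
        have hw' : 0 ≤ 1 - (1 - t) / (1 - t₀) := by
          rw [sub_nonneg, div_le_one h1]; linarith [htt.1]
        have hc := hφ.2 ht hz hw hw' (by ring)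
        simp only [smul_eq_mul, mul_one] at hc
        have h5 : (1 - t) / (1 - t₀) * t₀ + (1 - (1 - t) / (1 - t₀)) = t := by
          field_simp
          ring
        rw [h5] at hc
        have h3 : 0 ≤ (1 - (1 - t) / (1 - t₀)) * φ 1 := mul_nonneg hw' (h0 1 hz)
        have h4 : φ t₀ / (1 - t₀) * (1 - t) = (1 - t) / (1 - t₀) * φ t₀ := by ring
        rw [h4]; linarith
  have : φ t₀ / 2 = φ t₀ * t₀ / 2 + φ t₀ * (1 - t₀) / 2 := by ring
  rw [this]; linarith

/-- a concave function with values in `[0,1]` and `M 1 = 1` is above the diagonal -/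
lemma diag_le {M : ℝ → ℝ} (hM : ConcaveOn ℝ (Icc 0 1) M) (hM0 : ∀ s ∈ Icc (0:ℝ) 1, 0 ≤ M s)
    (hM11 : M 1 = 1) {s : ℝ} (hs : s ∈ Icc (0:ℝ) 1) : s ≤ M s := by
  have h0 : (0:ℝ) ∈ Icc (0:ℝ) 1 := ⟨le_rfl, zero_le_one⟩
  have h1 : (1:ℝ) ∈ Icc (0:ℝ) 1 := ⟨zero_le_one, le_rfl⟩
  have h := hM.2 h0 h1 (sub_nonneg.2 hs.2) hs.1 (by ring)
  simp only [smul_eq_mul, mul_zero, zero_add, mul_one, hM11] at h
  nlinarith [mul_nonneg (sub_nonneg.2 hs.2) (hM0 0 h0)]

/-- either `M - id` is nonincreasing on `(0,1]` or it attains its maximum in `(0,1]` -/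
lemma exists_argmax {M : ℝ → ℝ} (hM : ConcaveOn ℝ (Icc 0 1) M)
    (hM0 : ∀ s ∈ Icc (0:ℝ) 1, 0 ≤ M s) (hM1 : ∀ s ∈ Icc (0:ℝ) 1, M s ≤ 1) (hM11 : M 1 = 1) :
    (∀ x y : ℝ, 0 < x → x ≤ y → y ≤ 1 → M y - y ≤ M x - x) ∨
      ∃ s : ℝ, 0 < s ∧ s ≤ 1 ∧ ∀ t ∈ Icc (0:ℝ) 1, M t - t ≤ M s - s := by
  by_cases h : ∀ x y : ℝ, 0 < x → x ≤ y → y ≤ 1 → M y - y ≤ M x - x
  · exact Or.inl h
  right
  push Not at h
  obtain ⟨a, b, ha, hab, hb, hlt⟩ := h
  have ha1 : a ≤ 1 := hab.trans hb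
  -- continuity on `[a,1]`
  have hcont : ContinuousOn (fun t => M t - t) (Icc a 1) := by
    intro t ht
    refine ContinuousWithinAt.sub ?_ continuousWithinAt_id
    rcases ht.2.eq_or_lt with h1 | h1
    · -- at one: squeeze
      subst h1
      have hsq : Tendsto M (𝓝[Icc a 1] 1) (𝓝 (M 1)) := by
        rw [hM11]
        refine tendsto_of_tendsto_of_tendsto_of_le_of_le' (g := fun t => t) (h := fun _ => 1)
          ?_ tendsto_const_nhds ?_ ?_
        · exact (continuous_id.tendsto 1).mono_left nhdsWithin_le_nhds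
        · filter_upwards [self_mem_nhdsWithin] with t ht
          exact diag_le hM hM0 hM11 ⟨ha.le.trans ht.1, ht.2⟩
        · filter_upwards [self_mem_nhdsWithin] with t ht
          exact hM1 t ⟨ha.le.trans ht.1, ht.2⟩
      exact hsq
    · have hi : t ∈ interior (Icc (0:ℝ) 1) := by
        rw [interior_Icc]; exact ⟨lt_of_lt_of_le ha ht.1, h1⟩
      have := hM.continuousOn_interior t hi
      exact ((this.continuousAt (isOpen_interior.mem_nhds hi))).continuousWithinAt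
  obtain ⟨s, hs, hsmax⟩ := isCompact_Icc.exists_isMaxOn ⟨a, left_mem_Icc.2 ha1⟩ hcont
  have hbs : M b - b ≤ M s - s := hsmax (show b ∈ Icc a 1 from ⟨hab, hb⟩)
  have has : a < s := by
    rcases hs.1.eq_or_lt with h1 | h1
    · rw [← h1] at hbs; linarith
    · exact h1
  refine ⟨s, ha.trans has, hs.2, fun t ht => ?_⟩
  by_cases hta : a ≤ t
  · exact hsmax (show t ∈ Icc a 1 from ⟨hta, ht.2⟩)
  · push Not at hta
    have hmc : ConcaveOn ℝ (Icc 0 1) (fun t => M t - t) :=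
      hM.sub (convexOn_id (convex_Icc 0 1))
    have hs01 : s ∈ Icc (0:ℝ) 1 := ⟨(ha.trans has).le, hs.2⟩
    have h : min (M t - t) (M s - s) ≤ M a - a :=
      hmc.min_le_of_mem_Icc ht hs01 (⟨hta.le, has.le⟩ : a ∈ Icc t s)
    rcases le_total (M t - t) (M s - s) with h2 | h2
    · exact h2
    · rw [min_eq_right h2] at h
      linarith

/-- the sum of the shifted and unshifted parts -/
theorem mono_core {M g : ℝ → ℝ}
    (hM : ConcaveOn ℝ (Icc 0 1) M) (hM0 : ∀ s ∈ Icc (0:ℝ) 1, 0 ≤ M s)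
    (hM1 : ∀ s ∈ Icc (0:ℝ) 1, M s ≤ 1) (hM11 : M 1 = 1)
    (hg : ConcaveOn ℝ (Icc 0 1) g) (hg0 : ∀ t ∈ Icc (0:ℝ) 1, 0 ≤ g t)
    (hg1 : ∀ t ∈ Icc (0:ℝ) 1, g t ≤ 1) (hg11 : g 1 = 1) :
    ∫ t in (0:ℝ)..1, M (g t) ≤
      1 / 2 + (129 / 100) * ((∫ t in (0:ℝ)..1, g t) + (∫ s in (0:ℝ)..1, M s) - 1) := by
  have hone : (1:ℝ) ∈ Icc (0:ℝ) 1 := ⟨zero_le_one, le_rfl⟩
  have hzero : (0:ℝ) ∈ Icc (0:ℝ) 1 := ⟨le_rfl, zero_le_one⟩
  have hu : uIcc (0:ℝ) 1 = Icc 0 1 := uIcc_of_le zero_le_one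
  have hMmono : MonotoneOn M (Icc 0 1) := mono_left hM hone (by rw [hM11]; exact hM1)
  have hgmono : MonotoneOn g (Icc 0 1) := mono_left hg hone (by rw [hg11]; exact hg1)
  have hgI : ∀ t ∈ Icc (0:ℝ) 1, g t ∈ Icc (0:ℝ) 1 := fun t ht => ⟨hg0 t ht, hg1 t ht⟩
  have hMgmono : MonotoneOn (fun t => M (g t)) (Icc 0 1) :=
    fun x hx y hy hxy => hMmono (hgI x hx) (hgI y hy) (hgmono hx hy hxy)
  have iM : IntervalIntegrable M volume 0 1 := (hu ▸ hMmono : MonotoneOn M (uIcc 0 1)).intervalIntegrable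
  have ig : IntervalIntegrable g volume 0 1 := (hu ▸ hgmono : MonotoneOn g (uIcc 0 1)).intervalIntegrable
  have iMg : IntervalIntegrable (fun t => M (g t)) volume 0 1 :=
    (hu ▸ hMgmono : MonotoneOn (fun t => M (g t)) (uIcc 0 1)).intervalIntegrable
  have iid : IntervalIntegrable (fun t : ℝ => t) volume 0 1 := by simp
  set m : ℝ → ℝ := fun t => M t - t with hm
  have im : IntervalIntegrable m volume 0 1 := iM.sub iid
  have img : IntervalIntegrable (fun t => m (g t)) volume 0 1 := iMg.sub ig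
  have hmc : ConcaveOn ℝ (Icc 0 1) m := hM.sub (convexOn_id (convex_Icc 0 1))
  have hm0 : ∀ s ∈ Icc (0:ℝ) 1, 0 ≤ m s := fun s hs => sub_nonneg.2 (diag_le hM hM0 hM11 hs)
  have hgd : ∀ t ∈ Icc (0:ℝ) 1, t ≤ g t := fun t ht => diag_le hg hg0 hg11 ht
  set G : ℝ → ℝ := fun t => g t - t with hG
  have iG : IntervalIntegrable G volume 0 1 := ig.sub iid
  have hGc : ConcaveOn ℝ (Icc 0 1) G := hg.sub (convexOn_id (convex_Icc 0 1))
  have hG0 : ∀ s ∈ Icc (0:ℝ) 1, 0 ≤ G s := fun s hs => sub_nonneg.2 (hgd s hs)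
  have intm : ∫ t in (0:ℝ)..1, m t = (∫ t in (0:ℝ)..1, M t) - 1 / 2 := by
    rw [hm, intervalIntegral.integral_sub iM iid, integral_id01]
  have intG : ∫ t in (0:ℝ)..1, G t = (∫ t in (0:ℝ)..1, g t) - 1 / 2 := by
    rw [hG, intervalIntegral.integral_sub ig iid, integral_id01]
  have intmg : ∫ t in (0:ℝ)..1, m (g t) =
      (∫ t in (0:ℝ)..1, M (g t)) - ∫ t in (0:ℝ)..1, g t := by
    rw [hm, intervalIntegral.integral_sub iMg ig]
  have hmu : 0 ≤ ∫ t in (0:ℝ)..1, m t :=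
    intervalIntegral.integral_nonneg zero_le_one hm0
  have hnu : 0 ≤ ∫ t in (0:ℝ)..1, G t :=
    intervalIntegral.integral_nonneg zero_le_one hG0
  suffices key : ∫ t in (0:ℝ)..1, m (g t) ≤ (∫ t in (0:ℝ)..1, m t) +
      29 / 100 * ((∫ t in (0:ℝ)..1, m t) + ∫ t in (0:ℝ)..1, G t) by
    rw [intmg] at key
    rw [intm, intG] at key
    linarith
  rcases exists_argmax hM hM0 hM1 hM11 with hdec | ⟨s, hs0, hs1, hmax⟩
  · -- nonincreasing case
    have : ∫ t in (0:ℝ)..1, m (g t) ≤ ∫ t in (0:ℝ)..1, m t := by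
      refine intervalIntegral.integral_mono_on_of_le_Ioo zero_le_one img im fun t ht => ?_
      exact hdec t (g t) ht.1 (hgd t ⟨ht.1.le, ht.2.le⟩) (hg1 t ⟨ht.1.le, ht.2.le⟩)
    nlinarith
  -- main case
  have hsI : s ∈ Icc (0:ℝ) 1 := ⟨hs0.le, hs1⟩
  set a : ℝ := m s with ha
  have ha0 : 0 ≤ a := hm0 s hsI
  have has : a + s ≤ 1 := by
    have := hM1 s hsI
    rw [ha, hm]; simp only; linarith
  have hml : MonotoneOn m (Icc 0 s) := mono_left hmc hsI hmax
  have hmr : AntitoneOn m (Icc s 1) := anti_right hmc hsI hmax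
  have hmlin : ∀ t ∈ Icc (0:ℝ) s, a / s * t ≤ m t := by
    intro t ht
    have hw : (0:ℝ) ≤ t / s := div_nonneg ht.1 hs0.le
    have hw' : 0 ≤ 1 - t / s := by rw [sub_nonneg, div_le_one hs0]; exact ht.2
    have hc := hmc.2 hzero hsI hw' hw (by ring)
    simp only [smul_eq_mul, mul_zero, zero_add] at hc
    rw [div_mul_cancel₀ _ hs0.ne'] at hc
    have h3 : 0 ≤ (1 - t / s) * m 0 := mul_nonneg hw' (hm0 0 hzero)
    have h4 : a / s * t = t / s * m s := by rw [ha]; ring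
    rw [h4]; linarith
  -- the window
  set η : ℝ := sSup (G '' Icc 0 1) with hη
  have hbdd : BddAbove (G '' Icc 0 1) := by
    refine ⟨1, ?_⟩
    rintro _ ⟨t, ht, rfl⟩
    have := hg1 t ht
    simp only [hG]; linarith [ht.1]
  have hGle : ∀ t ∈ Icc (0:ℝ) 1, G t ≤ η := fun t ht => le_csSup hbdd ⟨t, ht, rfl⟩
  have hη0 : 0 ≤ η := (hG0 0 hzero).trans (hGle 0 hzero)
  have hηint : η / 2 ≤ ∫ t in (0:ℝ)..1, G t := by
    have : η ≤ 2 * ∫ t in (0:ℝ)..1, G t := by
      refine csSup_le ⟨G 0, 0, hzero, rfl⟩ ?_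
      rintro _ ⟨t, ht, rfl⟩
      have := half_le hGc hG0 iG ht
      linarith
    linarith
  have haint : a / 2 ≤ ∫ t in (0:ℝ)..1, m t := half_le hmc hm0 im hsI
  -- pieces
  have sub_int : ∀ {φ : ℝ → ℝ} {u v : ℝ}, IntervalIntegrable φ volume 0 1 → 0 ≤ u → u ≤ v →
      v ≤ 1 → IntervalIntegrable φ volume u v := by
    intro φ u v hφ hu0 huv hv1
    refine hφ.mono_set ?_
    rw [uIcc_of_le huv, hu]
    exact Icc_subset_Icc hu0 hv1
  have htail : ∫ t in s..1, m (g t) ≤ ∫ t in s..1, m t := by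
    refine intervalIntegral.integral_mono_on hs1 (sub_int img hs0.le hs1 le_rfl)
      (sub_int im hs0.le hs1 le_rfl) fun t ht => ?_
    have htI : t ∈ Icc (0:ℝ) 1 := ⟨hs0.le.trans ht.1, ht.2⟩
    exact hmr ht ⟨ht.1.trans (hgd t htI), hg1 t htI⟩ (hgd t htI)
  have hga : ∀ t ∈ Icc (0:ℝ) 1, m (g t) ≤ a := fun t ht => hmax (g t) (hgI t ht)
  -- the bound with `e = min η s`
  obtain ⟨e, he0, hes, heη, hE⟩ : ∃ e : ℝ, 0 ≤ e ∧ e ≤ s ∧ e ≤ η ∧
      ∫ t in (0:ℝ)..s, m (g t) ≤ (∫ t in e..s, m t) + e * a := by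
    rcases le_total η s with hηs | hηs
    · refine ⟨η, hη0, hηs, le_rfl, ?_⟩
      have hse : 0 ≤ s - η := by linarith
      have hse' : s - η ≤ s := by linarith
      rw [← intervalIntegral.integral_add_adjacent_intervals
        (sub_int img le_rfl hse (hse'.trans hs1)) (sub_int img hse hse' hs1)]
      have b1 : ∫ t in (0:ℝ)..(s - η), m (g t) ≤ ∫ t in η..s, m t := by
        have hsh : ∫ t in (0:ℝ)..(s - η), m (t + η) = ∫ t in η..s, m t := by
          rw [intervalIntegral.integral_comp_add_right]; simp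
        rw [← hsh]
        refine intervalIntegral.integral_mono_on hse (sub_int img le_rfl hse (hse'.trans hs1))
          ?_ fun t ht => ?_
        · have := (sub_int im hη0 hηs hs1).comp_add_right η
          simpa using this
        · have htI : t ∈ Icc (0:ℝ) 1 := ⟨ht.1, (ht.2.trans hse').trans hs1⟩
          have h1 : g t ≤ t + η := by have := hGle t htI; simp only [hG] at this; linarith
          have h2 : t + η ≤ s := by linarith [ht.2]
          exact hml ⟨hg0 t htI, h1.trans h2⟩ ⟨by linarith [ht.1], h2⟩ h1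
      have b2 : ∫ t in (s - η)..s, m (g t) ≤ η * a := by
        have : ∫ _t in (s - η)..s, a = η * a := by
          rw [intervalIntegral.integral_const]; simp
        rw [← this]
        refine intervalIntegral.integral_mono_on hse' (sub_int img hse hse' hs1) (by simp)
          fun t ht => hga t ⟨hse.trans ht.1, ht.2.trans hs1⟩
      linarith
    · refine ⟨s, hs0.le, le_rfl, hηs, ?_⟩
      rw [intervalIntegral.integral_same, zero_add]
      have : ∫ _t in (0:ℝ)..s, a = s * a := by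
        rw [intervalIntegral.integral_const]; simp
      rw [← this]
      exact intervalIntegral.integral_mono_on hs0.le (sub_int img le_rfl hs0.le hs1) (by simp)
          fun t ht => hga t ⟨ht.1, ht.2.trans hs1⟩
  have hlow : a * e ^ 2 / (2 * s) ≤ ∫ t in (0:ℝ)..e, m t := by
    have : ∫ t in (0:ℝ)..e, a / s * t = a * e ^ 2 / (2 * s) := by
      rw [intervalIntegral.integral_const_mul, integral_id]
      field_simp
      ring
    rw [← this]
    refine intervalIntegral.integral_mono_on he0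
      ((continuous_const.mul continuous_id).intervalIntegrable _ _)
      (sub_int im le_rfl he0 (hes.trans hs1)) fun t ht => hmlin t ⟨ht.1, ht.2.trans hes⟩
  have s1 := intervalIntegral.integral_add_adjacent_intervals
    (sub_int img le_rfl hs0.le hs1) (sub_int img hs0.le hs1 le_rfl)
  have s2 := intervalIntegral.integral_add_adjacent_intervals
    (sub_int im le_rfl hs0.le hs1) (sub_int im hs0.le hs1 le_rfl)
  have s3 := intervalIntegral.integral_add_adjacent_intervals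
    (sub_int im le_rfl he0 (hes.trans hs1)) (sub_int im he0 hes hs1)
  have hnum := num_ineq ha0 he0 hs0 has hes
  have hnum' : e * a - a * e ^ 2 / (2 * s) ≤ 29 / 100 * ((a + e) / 2) := by
    have h2s : 0 < 2 * s := by linarith
    rw [show e * a - a * e ^ 2 / (2 * s) = (a * e * (2 * s - e)) / (2 * s) by
      field_simp]
    rw [div_le_iff₀ h2s]
    nlinarith
  have : ∫ t in (0:ℝ)..1, m (g t) ≤ (∫ t in (0:ℝ)..1, m t) + (e * a - a * e ^ 2 / (2 * s)) := by
    rw [← s1, ← s2, ← s3]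
    linarith
  linarith

lemma integrable_of_peak {f : ℝ → ℝ} {p : ℝ} (hp : p ∈ Icc (0:ℝ) 1)
    (h1 : MonotoneOn f (Icc 0 p)) (h2 : AntitoneOn f (Icc p 1)) :
    IntervalIntegrable f volume 0 p ∧ IntervalIntegrable f volume p 1 ∧
      IntervalIntegrable f volume 0 1 := by
  have i1 : IntervalIntegrable f volume 0 p :=
    MonotoneOn.intervalIntegrable (by rwa [uIcc_of_le hp.1])
  have i2 : IntervalIntegrable f volume p 1 :=
    AntitoneOn.intervalIntegrable (by rwa [uIcc_of_le hp.2])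
  exact ⟨i1, i2, i1.trans i2⟩

/-- **Composition inequality.**  `M` concave on `[0,1]` with values in `[0,1]` and `M 1 = 1`;
`f` concave on `[0,1]` with values in `[0,1]`, attaining the value `1`. -/
theorem comp_core {M f : ℝ → ℝ}
    (hM : ConcaveOn ℝ (Icc 0 1) M) (hM0 : ∀ s ∈ Icc (0:ℝ) 1, 0 ≤ M s)
    (hM1 : ∀ s ∈ Icc (0:ℝ) 1, M s ≤ 1) (hM11 : M 1 = 1)
    (hf : ConcaveOn ℝ (Icc 0 1) f) (hf0 : ∀ t ∈ Icc (0:ℝ) 1, 0 ≤ f t)
    (hf1 : ∀ t ∈ Icc (0:ℝ) 1, f t ≤ 1) {p : ℝ} (hp : p ∈ Icc (0:ℝ) 1) (hfp : f p = 1) :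
    IntervalIntegrable (fun t => M (f t)) volume 0 1 ∧ IntervalIntegrable f volume 0 1 ∧
    IntervalIntegrable M volume 0 1 ∧
    ∫ t in (0:ℝ)..1, M (f t) ≤
      1 / 2 + (129 / 100) * ((∫ t in (0:ℝ)..1, f t) + (∫ s in (0:ℝ)..1, M s) - 1) := by
  have hone : (1:ℝ) ∈ Icc (0:ℝ) 1 := ⟨zero_le_one, le_rfl⟩
  have hMmono : MonotoneOn M (Icc 0 1) := mono_left hM hone (by rw [hM11]; exact hM1)
  have hfI : ∀ t ∈ Icc (0:ℝ) 1, f t ∈ Icc (0:ℝ) 1 := fun t ht => ⟨hf0 t ht, hf1 t ht⟩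
  have hfl : MonotoneOn f (Icc 0 p) := mono_left hf hp (by rw [hfp]; exact hf1)
  have hfr : AntitoneOn f (Icc p 1) := anti_right hf hp (by rw [hfp]; exact hf1)
  have hl : ∀ t ∈ Icc (0:ℝ) p, t ∈ Icc (0:ℝ) 1 := fun t ht => ⟨ht.1, ht.2.trans hp.2⟩
  have hr : ∀ t ∈ Icc p (1:ℝ), t ∈ Icc (0:ℝ) 1 := fun t ht => ⟨hp.1.trans ht.1, ht.2⟩
  have hMfl : MonotoneOn (fun t => M (f t)) (Icc 0 p) := fun x hx y hy hxy =>
    hMmono (hfI x (hl x hx)) (hfI y (hl y hy)) (hfl hx hy hxy)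
  have hMfr : AntitoneOn (fun t => M (f t)) (Icc p 1) := fun x hx y hy hxy =>
    hMmono (hfI y (hr y hy)) (hfI x (hr x hx)) (hfr hx hy hxy)
  obtain ⟨if1, if2, if3⟩ := integrable_of_peak hp hfl hfr
  obtain ⟨iM1, iM2, iM3⟩ := integrable_of_peak hp hMfl hMfr
  have iM : IntervalIntegrable M volume 0 1 :=
    MonotoneOn.intervalIntegrable (by rwa [uIcc_of_le zero_le_one])
  refine ⟨iM3, if3, iM, ?_⟩
  rw [split_integral hp iM1 iM2, split_integral hp if1 if2]
  -- the two rescaled functions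
  have m1 : ∀ u ∈ Icc (0:ℝ) 1, p * u ∈ Icc (0:ℝ) 1 := fun u hu =>
    ⟨mul_nonneg hp.1 hu.1, by nlinarith [hp.1, hp.2, hu.1, hu.2]⟩
  have m2 : ∀ u ∈ Icc (0:ℝ) 1, 1 - (1 - p) * u ∈ Icc (0:ℝ) 1 := fun u hu =>
    ⟨by nlinarith [hp.1, hp.2, hu.1, hu.2], by nlinarith [hp.1, hp.2, hu.1, hu.2]⟩
  have c1 : ConcaveOn ℝ (Icc 0 1) (fun u => f (p * u)) := by
    refine ⟨convex_Icc 0 1, fun x hx y hy a b ha hb hab => ?_⟩
    have := hf.2 (m1 x hx) (m1 y hy) ha hb hab
    simp only [smul_eq_mul] at this ⊢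
    rwa [show p * (a * x + b * y) = a * (p * x) + b * (p * y) by ring]
  have c2 : ConcaveOn ℝ (Icc 0 1) (fun u => f (1 - (1 - p) * u)) := by
    refine ⟨convex_Icc 0 1, fun x hx y hy a b ha hb hab => ?_⟩
    have := hf.2 (m2 x hx) (m2 y hy) ha hb hab
    simp only [smul_eq_mul] at this ⊢
    rwa [show 1 - (1 - p) * (a * x + b * y) =
      a * (1 - (1 - p) * x) + b * (1 - (1 - p) * y) by linear_combination (-1) * hab]
  have k1 := mono_core hM hM0 hM1 hM11 c1 (fun t ht => hf0 _ (m1 t ht)) (fun t ht => hf1 _ (m1 t ht))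
    (by simp [hfp])
  have k2 := mono_core hM hM0 hM1 hM11 c2 (fun t ht => hf0 _ (m2 t ht)) (fun t ht => hf1 _ (m2 t ht))
    (by simp [hfp])
  have hq : 0 ≤ 1 - p := sub_nonneg.2 hp.2
  have e1 := mul_le_mul_of_nonneg_left k1 hp.1
  have e2 := mul_le_mul_of_nonneg_left k2 hq
  nlinarith

end Pool.Agent.X178.Areas
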