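import Pool.Agent.X178.Areas.Core

/-!
# The area of the fibre-product shadow of two planar convex bodies
-/

open MeasureTheory Set Filter Topology

namespace Pool.Agent.X178.Areas

/-- length of the hull of a bounded set of reals -/
noncomputable def len (U : Set ℝ) : ℝ := sSup U - sInf U

/-- a planar convex body inscribed in the unit square and touching all four sides -/
structure Box (B : Set (ℝ × ℝ)) : Prop where
  compact : IsCompact B
  convex : Convex ℝ B
  sub : ∀ p ∈ B, p.1 ∈ Icc (0:ℝ) 1 ∧ p.2 ∈ Icc (0:ℝ) 1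
  full1 : ∀ x ∈ Icc (0:ℝ) 1, ∃ z, (x, z) ∈ B
  full2 : ∀ z ∈ Icc (0:ℝ) 1, ∃ x, (x, z) ∈ B

/-- a nonempty compact interval -/
structure Itv (U : Set ℝ) : Prop where
  compact : IsCompact U
  convex : Convex ℝ U
  ne : U.Nonempty

lemma Itv.eq_Icc {U : Set ℝ} (h : Itv U) : U = Icc (sInf U) (sSup U) :=
  eq_Icc_of_connected_compact ⟨h.ne, h.convex.isPreconnected⟩ h.compact

lemma Itv.le {U : Set ℝ} (h : Itv U) : sInf U ≤ sSup U := by
  obtain ⟨x, hx⟩ := h.ne
  exact (csInf_le h.compact.bddBelow hx).trans (le_csSup h.compact.bddAbove hx)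

lemma Itv.volume_real {U : Set ℝ} (h : Itv U) : volume.real U = len U := by
  have h1 : volume.real U = volume.real (Icc (sInf U) (sSup U)) := by rw [← h.eq_Icc]
  rw [h1, Real.volume_real_Icc_of_le h.le, len]

lemma Itv.finite {U : Set ℝ} (h : Itv U) : volume U ≠ ⊤ := h.compact.measure_ne_top

lemma inter_le {U V : Set ℝ} (hU : Itv U) (hV : Itv V) (h : Icc (0:ℝ) 1 ⊆ U ∪ V) :
    volume.real (U ∩ V) ≤ len U + len V - 1 := by
  have h1 := measureReal_union_add_inter (μ := volume) (s := U) (t := V)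
    hV.compact.measurableSet hU.finite hV.finite
  have h2 : volume.real (Icc (0:ℝ) 1) ≤ volume.real (U ∪ V) :=
    measureReal_mono h (hU.compact.union hV.compact).measure_ne_top
  rw [Real.volume_real_Icc_of_le zero_le_one] at h2
  rw [hU.volume_real, hV.volume_real] at h1
  linarith

lemma le_inter {U V : Set ℝ} (hU : Itv U) (hV : Itv V) (h : U ∪ V ⊆ Icc (0:ℝ) 1) :
    len U + len V - 1 ≤ volume.real (U ∩ V) := by
  have h1 := measureReal_union_add_inter (μ := volume) (s := U) (t := V)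
    hV.compact.measurableSet hU.finite hV.finite
  have h2 : volume.real (U ∪ V) ≤ volume.real (Icc (0:ℝ) 1) :=
    measureReal_mono h (by simp)
  rw [Real.volume_real_Icc_of_le zero_le_one] at h2
  rw [hU.volume_real, hV.volume_real] at h1
  linarith

/-- reflection of the second coordinate -/
def R (D : Set (ℝ × ℝ)) : Set (ℝ × ℝ) := {p | (p.1, 1 - p.2) ∈ D}

lemma R_eq (D : Set (ℝ × ℝ)) : R D = (fun p : ℝ × ℝ => (p.1, 1 - p.2)) '' D := by
  ext ⟨x, y⟩
  constructor
  · intro h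
    exact ⟨(x, 1 - y), h, by simp⟩
  · rintro ⟨⟨a, b⟩, h, he⟩
    simp only [Prod.mk.injEq] at he
    obtain ⟨rfl, rfl⟩ := he
    show (a, 1 - (1 - b)) ∈ D
    simpa using h

lemma Box.refl {D : Set (ℝ × ℝ)} (h : Box D) : Box (R D) where
  compact := by
    rw [R_eq]
    exact h.compact.image (by fun_prop)
  convex := by
    intro p hp q hq a b ha hb hab
    have := h.convex hp hq ha hb hab
    show ((a • p + b • q).1, 1 - (a • p + b • q).2) ∈ D
    convert this using 1
    ext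
    · simp
    · simp only [Prod.snd_add, Prod.smul_snd, smul_eq_mul, Prod.smul_mk, Prod.mk_add_mk]
      linear_combination (-1) * hab
  sub := by
    intro p hp
    obtain ⟨h1, h2⟩ := h.sub _ hp
    exact ⟨h1, by constructor <;> [linarith [h2.2]; linarith [h2.1]]⟩
  full1 := by
    intro x hx
    obtain ⟨z, hz⟩ := h.full1 x hx
    exact ⟨1 - z, by show (x, 1 - (1 - z)) ∈ D; simpa using hz⟩
  full2 := by
    intro z hz
    obtain ⟨x, hx⟩ := h.full2 (1 - z) ⟨by linarith [hz.2], by linarith [hz.1]⟩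
    exact ⟨x, hx⟩

/-- vertical sections -/
def sec (B : Set (ℝ × ℝ)) (x : ℝ) : Set ℝ := {z | (x, z) ∈ B}

/-- shadow of the part below height `s` -/
def P (D : Set (ℝ × ℝ)) (s : ℝ) : Set ℝ := {y | ∃ z, z ≤ s ∧ (y, z) ∈ D}

/-- top function -/
noncomputable def top (B : Set (ℝ × ℝ)) (x : ℝ) : ℝ := sSup (sec B x)

lemma Box.sec_itv {B : Set (ℝ × ℝ)} (h : Box B) {x : ℝ} (hx : x ∈ Icc (0:ℝ) 1) :
    Itv (sec B x) where
  compact := by
    have : sec B x = (fun p : ℝ × ℝ => p.2) '' (B ∩ {p | p.1 = x}) := by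
      ext z
      constructor
      · intro hz
        exact ⟨(x, z), ⟨hz, rfl⟩, rfl⟩
      · rintro ⟨⟨a, b⟩, ⟨h1, h2⟩, rfl⟩
        have h3 : a = x := h2
        subst h3
        exact h1
    rw [this]
    exact (h.compact.inter_right (isClosed_eq continuous_fst continuous_const)).image
      continuous_snd
  convex := by
    intro u hu v hv a b ha hb hab
    have := h.convex hu hv ha hb hab
    show (x, a • u + b • v) ∈ B
    convert this using 1
    ext
    · simp only [Prod.smul_mk, smul_eq_mul, Prod.mk_add_mk]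
      linear_combination (-x) * hab
    · simp
  ne := h.full1 x hx

lemma Box.P_itv {D : Set (ℝ × ℝ)} (h : Box D) {s : ℝ} (hs : s ∈ Icc (0:ℝ) 1) :
    Itv (P D s) where
  compact := by
    have : P D s = (fun p : ℝ × ℝ => p.1) '' (D ∩ {p | p.2 ≤ s}) := by
      ext y
      constructor
      · rintro ⟨z, hz, hyz⟩
        exact ⟨(y, z), ⟨hyz, hz⟩, rfl⟩
      · rintro ⟨⟨a, b⟩, ⟨h1, h2⟩, rfl⟩
        exact ⟨b, h2, h1⟩
    rw [this]
    exact (h.compact.inter_right (isClosed_le continuous_snd continuous_const)).image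
      continuous_fst
  convex := by
    rintro u ⟨z, hz, hu⟩ v ⟨w, hw, hv⟩ a b ha hb hab
    refine ⟨a * z + b * w, ?_, ?_⟩
    · have e1 := add_le_add (mul_le_mul_of_nonneg_left hz ha) (mul_le_mul_of_nonneg_left hw hb)
      have e2 : a * s + b * s = s := by rw [← add_mul, hab, one_mul]
      linarith
    · have := h.convex hu hv ha hb hab
      simpa using this
  ne := by
    obtain ⟨y, hy⟩ := h.full2 s hs
    exact ⟨y, s, le_rfl, hy⟩

lemma Box.P_sub {D : Set (ℝ × ℝ)} (h : Box D) {s : ℝ} : P D s ⊆ Icc (0:ℝ) 1 := by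
  rintro y ⟨z, _, hy⟩
  exact (h.sub _ hy).1

lemma Box.top_mem {B : Set (ℝ × ℝ)} (h : Box B) {x : ℝ} (hx : x ∈ Icc (0:ℝ) 1) :
    (x, top B x) ∈ B :=
  (h.sec_itv hx).compact.sSup_mem (h.sec_itv hx).ne

lemma Box.top_mem01 {B : Set (ℝ × ℝ)} (h : Box B) {x : ℝ} (hx : x ∈ Icc (0:ℝ) 1) :
    top B x ∈ Icc (0:ℝ) 1 := (h.sub _ (h.top_mem hx)).2

lemma Box.top_concave {B : Set (ℝ × ℝ)} (h : Box B) : ConcaveOn ℝ (Icc 0 1) (top B) := by
  refine ⟨convex_Icc 0 1, fun x hx y hy a b ha hb hab => ?_⟩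
  have hz := convex_Icc (0:ℝ) 1 hx hy ha hb hab
  refine le_csSup (h.sec_itv hz).compact.bddAbove ?_
  have := h.convex (h.top_mem hx) (h.top_mem hy) ha hb hab
  show (a • x + b • y, a • top B x + b • top B y) ∈ B
  simpa using this

lemma Box.top_peak {B : Set (ℝ × ℝ)} (h : Box B) : ∃ p ∈ Icc (0:ℝ) 1, top B p = 1 := by
  obtain ⟨p, hp⟩ := h.full2 1 ⟨zero_le_one, le_rfl⟩
  have hp1 := (h.sub _ hp).1
  refine ⟨p, hp1, le_antisymm (h.top_mem01 hp1).2 ?_⟩
  exact le_csSup (h.sec_itv hp1).compact.bddAbove hp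

lemma len_bounds {U : Set ℝ} (hU : Itv U) (h : U ⊆ Icc (0:ℝ) 1) : 0 ≤ len U ∧ len U ≤ 1 := by
  have h1 := h (hU.compact.sInf_mem hU.ne)
  have h2 := h (hU.compact.sSup_mem hU.ne)
  unfold len
  exact ⟨sub_nonneg.2 hU.le, by linarith [h1.1, h2.2]⟩

lemma Box.M_concave {D : Set (ℝ × ℝ)} (h : Box D) :
    ConcaveOn ℝ (Icc 0 1) (fun s => len (P D s)) := by
  refine ⟨convex_Icc 0 1, fun x hx y hy a b ha hb hab => ?_⟩
  have hz := convex_Icc (0:ℝ) 1 hx hy ha hb hab
  have ix := h.P_itv hx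
  have iy := h.P_itv hy
  have iz := h.P_itv hz
  have key : ∀ u ∈ P D x, ∀ v ∈ P D y, a * u + b * v ∈ P D (a • x + b • y) := by
    rintro u ⟨z, hz, hu⟩ v ⟨w, hw, hv⟩
    refine ⟨a * z + b * w, ?_, ?_⟩
    · simp only [smul_eq_mul]
      exact add_le_add (mul_le_mul_of_nonneg_left hz ha) (mul_le_mul_of_nonneg_left hw hb)
    · have := h.convex hu hv ha hb hab
      simpa using this
  have h1 := le_csSup iz.compact.bddAbove
    (key _ (ix.compact.sSup_mem ix.ne) _ (iy.compact.sSup_mem iy.ne))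
  have h2 := csInf_le iz.compact.bddBelow
    (key _ (ix.compact.sInf_mem ix.ne) _ (iy.compact.sInf_mem iy.ne))
  simp only [len, smul_eq_mul] at h1 h2 ⊢
  nlinarith

lemma Box.M_one {D : Set (ℝ × ℝ)} (h : Box D) : len (P D 1) = 1 := by
  have i1 := h.P_itv (s := 1) ⟨zero_le_one, le_rfl⟩
  have : P D 1 = Icc (0:ℝ) 1 := by
    apply Subset.antisymm h.P_sub
    intro y hy
    obtain ⟨z, hz⟩ := h.full1 y hy
    exact ⟨z, (h.sub _ hz).2.2, hz⟩
  rw [this, len, csSup_Icc zero_le_one, csInf_Icc zero_le_one]; norm_num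

/-- the basic inequality for one pair -/
lemma pair_core {B D : Set (ℝ × ℝ)} (hB : Box B) (hD : Box D) :
    IntervalIntegrable (fun x => len (P D (top B x))) volume 0 1 ∧
    IntervalIntegrable (top B) volume 0 1 ∧
    IntervalIntegrable (fun s => len (P D s)) volume 0 1 ∧
    ∫ x in (0:ℝ)..1, len (P D (top B x)) ≤ 1 / 2 + (129 / 100) *
      ((∫ x in (0:ℝ)..1, top B x) + (∫ s in (0:ℝ)..1, len (P D s)) - 1) := by
  obtain ⟨p, hp, hpeak⟩ := hB.top_peak
  exact comp_core hD.M_concave (fun s hs => (len_bounds (hD.P_itv hs) hD.P_sub).1)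
    (fun s hs => (len_bounds (hD.P_itv hs) hD.P_sub).2) hD.M_one hB.top_concave
    (fun t ht => (hB.top_mem01 ht).1) (fun t ht => (hB.top_mem01 ht).2) hp hpeak

/-- the section of `B` at `x` has length `top B x + top (R B) x - 1` -/
lemma Box.sec_len {B : Set (ℝ × ℝ)} (h : Box B) {x : ℝ} (hx : x ∈ Icc (0:ℝ) 1) :
    volume.real (sec B x) = top B x + top (R B) x - 1 := by
  have i1 := h.sec_itv hx
  rw [i1.volume_real, len]
  have hR : top (R B) x = 1 - sInf (sec B x) := by
    have i2 := h.refl.sec_itv hx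
    apply le_antisymm
    · have := h.refl.top_mem hx
      have h2 : 1 - top (R B) x ∈ sec B x := this
      have := csInf_le i1.compact.bddBelow h2
      linarith
    · refine le_csSup i2.compact.bddAbove ?_
      show (x, 1 - (1 - sInf (sec B x))) ∈ B
      have : (x, sInf (sec B x)) ∈ B := i1.compact.sInf_mem i1.ne
      simpa using this
  rw [hR, top]; ring

/-- the horizontal sections of `D` -/
def hsec (D : Set (ℝ × ℝ)) (s : ℝ) : Set ℝ := {y | (y, s) ∈ D}

lemma Box.inter_eq {D : Set (ℝ × ℝ)} (h : Box D) {s t : ℝ} (hst : s ≤ t) :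
    P D t ∩ P (R D) (1 - s) = {y | ∃ z, s ≤ z ∧ z ≤ t ∧ (y, z) ∈ D} := by
  ext y
  constructor
  · rintro ⟨⟨z, hz, hy⟩, w, hw, hy'⟩
    have hy2 : (y, 1 - w) ∈ D := hy'
    have hw2 : s ≤ 1 - w := by linarith
    -- the segment between heights `z ≤ t` and `1 - w ≥ s`
    by_cases h1 : s ≤ z
    · exact ⟨z, h1, hz, hy⟩
    by_cases h2 : 1 - w ≤ t
    · exact ⟨1 - w, hw2, h2, hy2⟩
    push Not at h1 h2
    have hseg : s ∈ segment ℝ z (1 - w) := by
      rw [segment_eq_Icc (by linarith)]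
      exact ⟨h1.le, by linarith⟩
    obtain ⟨a, b, ha, hb, hab, he⟩ := hseg
    refine ⟨s, le_rfl, hst, ?_⟩
    have := h.convex hy hy2 ha hb hab
    have e : a • (y, z) + b • (y, 1 - w) = (y, s) := by
      ext
      · simp only [Prod.smul_mk, smul_eq_mul, Prod.mk_add_mk]
        linear_combination y * hab
      · simp only [Prod.smul_mk, smul_eq_mul, Prod.mk_add_mk]
        simpa using he
    rwa [e] at this
  · rintro ⟨z, h1, h2, hy⟩
    refine ⟨⟨z, h2, hy⟩, 1 - z, by linarith, ?_⟩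
    show (y, 1 - (1 - z)) ∈ D
    simpa using hy

lemma Box.hsec_len {D : Set (ℝ × ℝ)} (h : Box D) {s : ℝ} (hs : s ∈ Icc (0:ℝ) 1) :
    len (P D s) + len (P (R D) (1 - s)) - 1 ≤ volume.real (hsec D s) := by
  have hs' : 1 - s ∈ Icc (0:ℝ) 1 := ⟨by linarith [hs.2], by linarith [hs.1]⟩
  have h1 := le_inter (h.P_itv hs) (h.refl.P_itv hs') (union_subset h.P_sub h.refl.P_sub)
  rw [h.inter_eq le_rfl] at h1
  have h2 : {y | ∃ z, s ≤ z ∧ z ≤ s ∧ (y, z) ∈ D} = hsec D s := by
    ext y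
    constructor
    · rintro ⟨z, ha, hb, hy⟩
      have : z = s := le_antisymm hb ha
      subst this
      exact hy
    · intro hy
      exact ⟨s, le_rfl, le_rfl, hy⟩
  rwa [h2] at h1

/-- bound for the shadow of a band -/
lemma band_len {D : Set (ℝ × ℝ)} (h : Box D) {s t : ℝ} (hs : s ∈ Icc (0:ℝ) 1)
    (ht : t ∈ Icc (0:ℝ) 1) (hst : s ≤ t) :
    volume.real {y | ∃ z, s ≤ z ∧ z ≤ t ∧ (y, z) ∈ D} ≤
      len (P D t) + len (P (R D) (1 - s)) - 1 := by
  have hs' : 1 - s ∈ Icc (0:ℝ) 1 := ⟨by linarith [hs.2], by linarith [hs.1]⟩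
  rw [← h.inter_eq hst]
  refine inter_le (h.P_itv ht) (h.refl.P_itv hs') fun y hy => ?_
  obtain ⟨z, hz⟩ := h.full1 y hy
  by_cases h1 : z ≤ t
  · exact Or.inl ⟨z, h1, hz⟩
  · right
    refine ⟨1 - z, by linarith, ?_⟩
    show (y, 1 - (1 - z)) ∈ D
    simpa using hz

lemma integral_Icc_eq {φ : ℝ → ℝ} :
    ∫ x in Icc (0:ℝ) 1, φ x = ∫ x in (0:ℝ)..1, φ x := by
  rw [intervalIntegral.integral_of_le zero_le_one, integral_Icc_eq_integral_Ioc]

lemma integrableOn_Icc {φ : ℝ → ℝ} (h : IntervalIntegrable φ volume 0 1) :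
    IntegrableOn φ (Icc 0 1) := by
  rwa [integrableOn_Icc_iff_integrableOn_Ioc, ← intervalIntegrable_iff_integrableOn_Ioc_of_le
    zero_le_one]

/-- vertical slicing of `B` -/
lemma Box.area_ge {B : Set (ℝ × ℝ)} (h : Box B) :
    (∫ x in (0:ℝ)..1, top B x) + (∫ x in (0:ℝ)..1, top (R B) x) - 1 ≤ volume.real B := by
  have i1 := (pair_core h h).2.1
  have i2 := (pair_core h.refl h).2.1
  set φ : ℝ → ℝ := fun x => top B x + top (R B) x - 1 with hφ
  have iφ : IntervalIntegrable φ volume 0 1 := (i1.add i2).sub (by simp)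
  have e1 : (∫ x in (0:ℝ)..1, top B x) + (∫ x in (0:ℝ)..1, top (R B) x) - 1 =
      ∫ x in Icc (0:ℝ) 1, φ x := by
    rw [integral_Icc_eq, hφ, intervalIntegral.integral_sub (i1.add i2) (by simp),
      intervalIntegral.integral_add i1 i2]
    simp
  rw [e1]
  have hnn : ∀ x ∈ Icc (0:ℝ) 1, 0 ≤ φ x := fun x hx => by
    show 0 ≤ top B x + top (R B) x - 1
    rw [← h.sec_len hx]; exact measureReal_nonneg
  have h1 : ENNReal.ofReal (∫ x in Icc (0:ℝ) 1, φ x) ≤ volume B := by
    rw [ofReal_integral_eq_lintegral_ofReal (integrableOn_Icc iφ)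
      ((ae_restrict_iff' measurableSet_Icc).2 (ae_of_all _ hnn)),
      Measure.volume_eq_prod, Measure.prod_apply h.compact.measurableSet]
    refine (setLIntegral_mono_ae' measurableSet_Icc (ae_of_all _ fun x hx => ?_)).trans
      (setLIntegral_le_lintegral _ _)
    show ENNReal.ofReal (top B x + top (R B) x - 1) ≤ volume (sec B x)
    rw [← h.sec_len hx, ofReal_measureReal (h.sec_itv hx).finite]
  have hfin : volume B ≠ ⊤ := h.compact.measure_ne_top
  exact (ENNReal.ofReal_le_iff_le_toReal hfin).1 h1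

/-- horizontal slicing of `D` -/
lemma Box.area_ge' {D : Set (ℝ × ℝ)} (h : Box D) :
    (∫ s in (0:ℝ)..1, len (P D s)) + (∫ s in (0:ℝ)..1, len (P (R D) s)) - 1 ≤
      volume.real D := by
  have i1 := (pair_core h h).2.2.1
  have i2' := (pair_core h h.refl).2.2.1
  have i2 : IntervalIntegrable (fun s => len (P (R D) (1 - s))) volume 0 1 := by
    have := i2'.comp_sub_left 1
    simp only [sub_self, sub_zero] at this
    exact this.symm
  have e2 : ∫ s in (0:ℝ)..1, len (P (R D) s) = ∫ s in (0:ℝ)..1, len (P (R D) (1 - s)) := by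
    rw [intervalIntegral.integral_comp_sub_left (fun s => len (P (R D) s))]
    simp
  set φ : ℝ → ℝ := fun s => len (P D s) + len (P (R D) (1 - s)) - 1 with hφ
  have iφ : IntervalIntegrable φ volume 0 1 := (i1.add i2).sub (by simp)
  have e1 : (∫ s in (0:ℝ)..1, len (P D s)) + (∫ s in (0:ℝ)..1, len (P (R D) s)) - 1 =
      ∫ x in Icc (0:ℝ) 1, φ x := by
    rw [integral_Icc_eq, hφ, intervalIntegral.integral_sub (i1.add i2) (by simp),
      intervalIntegral.integral_add i1 i2, e2]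
    simp
  rw [e1]
  have hitv : ∀ s ∈ Icc (0:ℝ) 1, hsec D s ⊆ Icc (0:ℝ) 1 := fun s _ y hy => (h.sub _ hy).1
  have h1 : ENNReal.ofReal (∫ x in Icc (0:ℝ) 1, φ x) ≤ volume D := by
    have hle : ENNReal.ofReal (∫ x in Icc (0:ℝ) 1, φ x) ≤
        ∫⁻ x in Icc (0:ℝ) 1, ENNReal.ofReal (φ x) := by
      -- positive part
      have h4 : ∫ x in Icc (0:ℝ) 1, φ x ≤ ∫ x in Icc (0:ℝ) 1, max (φ x) 0 :=
        setIntegral_mono (integrableOn_Icc iφ) (integrableOn_Icc iφ).pos_part
          fun x => le_max_left _ _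
      refine (ENNReal.ofReal_le_ofReal h4).trans ?_
      rw [ofReal_integral_eq_lintegral_ofReal (integrableOn_Icc iφ).pos_part
        (ae_of_all _ fun x => le_max_right _ _)]
      refine lintegral_mono fun x => ?_
      rw [ENNReal.ofReal_max, ENNReal.ofReal_zero, max_eq_left (by exact bot_le)]
    refine hle.trans ?_
    rw [Measure.volume_eq_prod, Measure.prod_apply_symm h.compact.measurableSet]
    refine (setLIntegral_mono_ae' measurableSet_Icc (ae_of_all _ fun s hs => ?_)).trans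
      (setLIntegral_le_lintegral _ _)
    show ENNReal.ofReal (φ s) ≤ volume (hsec D s)
    refine (ENNReal.ofReal_le_ofReal (h.hsec_len hs)).trans ?_
    have hft : volume (hsec D s) ≠ ⊤ :=
      ne_top_of_le_ne_top (by simp) (measure_mono (hitv s hs) : _ ≤ volume (Icc (0:ℝ) 1))
    rw [ofReal_measureReal hft]
  have hfin : volume D ≠ ⊤ := h.compact.measure_ne_top
  exact (ENNReal.ofReal_le_iff_le_toReal hfin).1 h1

/-- **Planar inequality.** -/
theorem planar {B D A : Set (ℝ × ℝ)} (hB : Box B) (hD : Box D) (hA : MeasurableSet A)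
    (hAs : ∀ p ∈ A, p.1 ∈ Icc (0:ℝ) 1 ∧ ∃ z, (p.1, z) ∈ B ∧ (p.2, z) ∈ D) :
    volume.real A ≤ (129 / 100) * (volume.real B + volume.real D) := by
  obtain ⟨i1, i2, i3, k1⟩ := pair_core hB hD
  obtain ⟨j1, j2, j3, k2⟩ := pair_core hB.refl hD.refl
  set φ : ℝ → ℝ := fun x => len (P D (top B x)) + len (P (R D) (top (R B) x)) - 1 with hφ
  have iφ : IntervalIntegrable φ volume 0 1 := (i1.add j1).sub (by simp)
  have e1 : ∫ x in Icc (0:ℝ) 1, φ x = (∫ x in (0:ℝ)..1, len (P D (top B x))) +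
      (∫ x in (0:ℝ)..1, len (P (R D) (top (R B) x))) - 1 := by
    rw [integral_Icc_eq, hφ, intervalIntegral.integral_sub (i1.add j1) (by simp),
      intervalIntegral.integral_add i1 j1]
    simp
  have hband : ∀ x ∈ Icc (0:ℝ) 1, volume.real {y | ∃ z, 1 - top (R B) x ≤ z ∧ z ≤ top B x ∧
      (y, z) ∈ D} ≤ φ x := by
    intro x hx
    have h1 := hB.top_mem01 hx
    have h2 := hB.refl.top_mem01 hx
    have h3 : 1 - top (R B) x ≤ top B x := by
      have := measureReal_nonneg (μ := volume) (s := sec B x)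
      rw [hB.sec_len hx] at this
      linarith
    have := band_len hD (s := 1 - top (R B) x) (t := top B x)
      ⟨by linarith [h2.2], by linarith [h2.1]⟩ h1 h3
    rwa [sub_sub_cancel] at this
  have hnn : ∀ x ∈ Icc (0:ℝ) 1, 0 ≤ φ x := fun x hx => measureReal_nonneg.trans (hband x hx)
  have h1 : volume A ≤ ENNReal.ofReal (∫ x in Icc (0:ℝ) 1, φ x) := by
    rw [ofReal_integral_eq_lintegral_ofReal (integrableOn_Icc iφ)
      ((ae_restrict_iff' measurableSet_Icc).2 (ae_of_all _ hnn)),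
      Measure.volume_eq_prod, Measure.prod_apply hA, ← lintegral_indicator measurableSet_Icc]
    refine lintegral_mono fun x => ?_
    by_cases hx : x ∈ Icc (0:ℝ) 1
    · rw [indicator_of_mem hx]
      have hsub : Prod.mk x ⁻¹' A ⊆ {y | ∃ z, 1 - top (R B) x ≤ z ∧ z ≤ top B x ∧
          (y, z) ∈ D} := by
        intro y hy
        obtain ⟨_, z, hz1, hz2⟩ := hAs (x, y) hy
        refine ⟨z, ?_, le_csSup (hB.sec_itv hx).compact.bddAbove hz1, hz2⟩
        have : 1 - z ∈ sec (R B) x := by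
          show (x, 1 - (1 - z)) ∈ B
          simpa using hz1
        have := le_csSup (hB.refl.sec_itv hx).compact.bddAbove this
        show 1 - sSup (sec (R B) x) ≤ z
        linarith
      have hfin : volume {y | ∃ z, 1 - top (R B) x ≤ z ∧ z ≤ top B x ∧ (y, z) ∈ D} ≠ ⊤ := by
        refine ne_top_of_le_ne_top (by simp) (measure_mono ?_ : _ ≤ volume (Icc (0:ℝ) 1))
        rintro y ⟨z, _, _, hy⟩
        exact (hD.sub _ hy).1
      refine (measure_mono hsub).trans ?_
      rw [← ofReal_measureReal hfin]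
      exact ENNReal.ofReal_le_ofReal (hband x hx)
    · rw [indicator_of_notMem hx]
      have : Prod.mk x ⁻¹' A = ∅ := by
        ext y
        simp only [mem_preimage, mem_empty_iff_false, iff_false]
        intro hy
        exact hx (hAs (x, y) hy).1
      rw [this]; simp
  have hint : 0 ≤ ∫ x in Icc (0:ℝ) 1, φ x :=
    setIntegral_nonneg measurableSet_Icc hnn
  have h2 : volume.real A ≤ ∫ x in Icc (0:ℝ) 1, φ x := by
    rw [← ENNReal.toReal_ofReal hint]
    exact ENNReal.toReal_mono ENNReal.ofReal_ne_top h1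
  rw [e1] at h2
  have g1 := hB.area_ge
  have g2 := hD.area_ge'
  linarith

end Pool.Agent.X178.Areas
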